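import Pool.Agent.helper2.BB.Spec

/-! # Module bb:B3 -/

set_option autoImplicit false

namespace BB

open Metric MeasureTheory Set Filter Topology Asymptotics
open Pool.Agent.helper37.PR

/-- B3 -/
theorem B3 (hB1 : B1_stmt) (hB2 : B2_stmt) : B3_stmt := by
  intro E _ _ _ ε u z t hu hz ht
  letI : InnerProductSpace ℝ E := InnerProductSpace.rclikeToReal ℂ E
  obtain ⟨h1, h2⟩ := hB2 E ε u z hu hz
  have hc := hB1 E ε u hu
  set g : ℝ → E := fun τ => VV ε u (Real.exp (-τ)) z with hg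
  have hg0 : g 0 = z := by
    show VV ε u (Real.exp (-0)) z = z
    rw [neg_zero, Real.exp_zero, h1]
  have hd : ∀ τ, 0 ≤ τ → HasDerivAt (fun τ => ‖g τ‖ ^ 2)
      (2 * inner ℝ (g τ) (-(hf ε u (g τ)))) τ := fun τ hτ => (h2 τ hτ).norm_sq
  have hneg : ∀ τ, ‖g τ‖ < 1 → 2 * inner ℝ (g τ) (-(hf ε u (g τ))) ≤ 0 := by
    intro τ hτ
    have h3 : inner ℝ (g τ) (-(hf ε u (g τ))) = -(inner ℂ (g τ) (hf ε u (g τ)) : ℂ).re := by
      rw [inner_neg_right, real_inner_eq_re_inner ℂ]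
      rfl
    rw [h3]
    by_cases h0 : g τ = 0
    · rw [h0]
      simp
    · have := hc.pos (g τ) (by simpa using hτ) h0
      linarith
  have key : ∀ η : ℝ, 0 < η → ‖z‖ ^ 2 + η * t < 1 → ‖g t‖ ^ 2 ≤ ‖z‖ ^ 2 + η * t := by
    intro η hη hlt
    refine image_le_of_deriv_right_lt_deriv_boundary' (f := fun τ => ‖g τ‖ ^ 2)
      (f' := fun τ => 2 * inner ℝ (g τ) (-(hf ε u (g τ)))) (a := 0) (b := t)
      (B := fun τ => ‖z‖ ^ 2 + η * τ) (B' := fun _ => η) ?_ ?_ ?_ ?_ ?_ ?_ (right_mem_Icc.mpr ht)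
    · intro τ hτ
      exact (hd τ hτ.1).continuousAt.continuousWithinAt
    · intro τ hτ
      exact (hd τ hτ.1).hasDerivWithinAt
    · show ‖g 0‖ ^ 2 ≤ ‖z‖ ^ 2 + η * 0
      rw [hg0]
      linarith
    · fun_prop
    · intro τ _
      have : HasDerivAt (fun τ : ℝ => ‖z‖ ^ 2 + η * τ) η τ := by
        simpa using ((hasDerivAt_id τ).const_mul η).const_add (‖z‖ ^ 2)
      exact this.hasDerivWithinAt
    · intro τ hτ heq
      have h4 : ‖g τ‖ ^ 2 < 1 := by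
        have h5 : ‖g τ‖ ^ 2 = ‖z‖ ^ 2 + η * τ := heq
        rw [h5]
        have h6 : η * τ ≤ η * t := mul_le_mul_of_nonneg_left hτ.2.le hη.le
        linarith
      have h7 : ‖g τ‖ < 1 := by
        by_contra hcon
        push Not at hcon
        nlinarith
      exact lt_of_le_of_lt (hneg τ h7) hη
  by_contra hcon
  push Not at hcon
  have hcon' : ‖z‖ < ‖g t‖ := hcon
  have hsq : ‖z‖ ^ 2 < ‖g t‖ ^ 2 := by
    have := norm_nonneg z
    nlinarith
  have hz2 : ‖z‖ ^ 2 < 1 := by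
    have := norm_nonneg z
    nlinarith
  set d := min (‖g t‖ ^ 2 - ‖z‖ ^ 2) (1 - ‖z‖ ^ 2) with hdd
  have hdpos : 0 < d := lt_min (by linarith) (by linarith)
  have hd1 : d ≤ ‖g t‖ ^ 2 - ‖z‖ ^ 2 := min_le_left _ _
  have hd2 : d ≤ 1 - ‖z‖ ^ 2 := min_le_right _ _
  have ht1 : 0 < t + 1 := by linarith
  have hη : d / (2 * (t + 1)) * t ≤ d / 2 := by
    rw [div_mul_eq_mul_div, div_le_div_iff₀ (by positivity) (by norm_num)]
    nlinarith
  have h8 := key (d / (2 * (t + 1))) (by positivity) (by linarith)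
  linarith

end BB
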